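import Pool.Agent.H94.G6.M120
import Pool.Agent.H94.G6.M81

/-!
# MQ2 TAxes: the terminal package at a corner

`v = (x a, y b)`, `x y` divides the weight `g`, `x` divides the Jacobian factor `J`.  No curve tangent to `v` meets the axes; everything is holomorphic.
-/

set_option autoImplicit false

open Topology Filter Metric MeasureTheory Asymptotics Laplacian

noncomputable section

namespace Pool.Agent.MQ2

open Pool.Agent.H36.BP (EN)
open Pool.Agent.H30M (tau LogSing)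
open Pool.Agent.MQ

/-! ### orders -/

theorem eq_of_punct_ax {A B : ℂ → ℂ} {z : ℂ} (hA : ContinuousAt A z) (hB : ContinuousAt B z) (h : ∀ᶠ w in 𝓝[≠] z, A w = B w) : A z = B z := by
  have h1 : Tendsto A (𝓝[≠] z) (𝓝 (A z)) := hA.tendsto.mono_left nhdsWithin_le_nhds
  have h2 : Tendsto B (𝓝[≠] z) (𝓝 (B z)) := hB.tendsto.mono_left nhdsWithin_le_nhds
  exact tendsto_nhds_unique h1 (h2.congr' (h.mono fun w hw => hw.symm))

theorem ord_pack {f : ℂ → ℂ} {z : ℂ} (hf : AnalyticAt ℂ f z) (hne : ∃ᶠ w in 𝓝 z, f w ≠ 0) :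
    ∃ (m : ℕ) (ξ : ℂ → ℂ), AnalyticAt ℂ ξ z ∧ ξ z ≠ 0 ∧ (m = 0 ↔ f z ≠ 0) ∧ (∀ᶠ w in 𝓝 z, f w = (w - z) ^ m * ξ w) ∧
      (∀ᶠ w in 𝓝 z, (w - z) * deriv f w = (w - z) ^ m * (m * ξ w + (w - z) * deriv ξ w)) := by
  have h1 : analyticOrderAt f z ≠ ⊤ := by
    intro h
    rw [analyticOrderAt_eq_top] at h
    exact hne (h.mono fun w hw h2 => h2 hw)
  obtain ⟨m, hm⟩ := ENat.ne_top_iff_exists.1 h1
  obtain ⟨ξ, hξ, hξ0, hfe⟩ := (hf.analyticOrderAt_eq_natCast).1 hm.symm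
  have hfe' : ∀ᶠ w in 𝓝 z, f w = (w - z) ^ m * ξ w := hfe.mono fun w hw => by rw [hw, smul_eq_mul]
  refine ⟨m, ξ, hξ, hξ0, ?_, hfe', ?_⟩
  · have h2 := hfe'.self_of_nhds
    rw [sub_self] at h2
    constructor
    · rintro rfl
      rw [h2, pow_zero, one_mul]
      exact hξ0
    · intro h3
      by_contra h4
      rw [h2, zero_pow h4, zero_mul] at h3
      exact h3 rfl
  · filter_upwards [hfe'.eventually_nhds, hξ.eventually_analyticAt] with w hw hξw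
    have e : f =ᶠ[𝓝 w] fun w => (w - z) ^ m * ξ w := hw
    rw [e.deriv_eq]
    have h2 : HasDerivAt (fun w => (w - z) ^ m * ξ w) (m * (w - z) ^ (m - 1) * 1 * ξ w + (w - z) ^ m * deriv ξ w) w :=
      ((((hasDerivAt_id w).sub_const z).fun_pow m)).fun_mul hξw.differentiableAt.hasDerivAt
    rw [h2.deriv]
    rcases Nat.eq_zero_or_pos m with rfl | hm0
    · simp
    · obtain ⟨k, rfl⟩ : ∃ k, m = k + 1 := ⟨m - 1, by omega⟩
      rw [Nat.add_sub_cancel]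
      push_cast
      ring

/-- a curve tangent to `(x a, y b)` -/
theorem ord_axes {v : ℂ × ℂ → ℂ × ℂ} {r : ℝ} {Om : Set ℂ} {p : ℂ → ℂ × ℂ} (h : Crv1 v r Om p) {a b : ℂ × ℂ → ℂ}
    (hv : ∀ p, v p = (p.1 * a p, p.2 * b p)) {z : ℂ} (hz : z ∈ Om) (ha : ContinuousAt a (p z)) (hb : ContinuousAt b (p z))
    (hx : ∃ᶠ w in 𝓝 z, (p w).1 ≠ 0) (hy : ∃ᶠ w in 𝓝 z, (p w).2 ≠ 0) :
    ∃ m n : ℕ, (m = 0 ↔ (p z).1 ≠ 0) ∧ (n = 0 ↔ (p z).2 ≠ 0) ∧ (m : ℂ) * b (p z) = n * a (p z) := by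
  have hp := h.an z hz
  obtain ⟨m, ξ, hξ, hξ0, hm, h1, h2⟩ := ord_pack (an_fst hp) hx
  obtain ⟨n, υ, hυ, hυ0, hn, h3, h4⟩ := ord_pack (an_snd hp) hy
  refine ⟨m, n, hm, hn, ?_⟩
  have hpc : ContinuousAt p z := hp.continuousAt
  have key := eq_of_punct_ax (A := fun w => ξ w * a (p w) * (n * υ w + (w - z) * deriv υ w)) (B := fun w => υ w * b (p w) * (m * ξ w + (w - z) * deriv ξ w))
    (z := z) ?_ ?_ ?_
  · simp only [sub_self, zero_mul, add_zero] at key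
    have e : ξ z * υ z * ((n : ℂ) * a (p z) - m * b (p z)) = 0 := by linear_combination key
    have := (mul_eq_zero.1 e).resolve_left (mul_ne_zero hξ0 hυ0)
    rw [sub_eq_zero] at this
    exact this.symm
  · exact (hξ.continuousAt.mul (ha.comp hpc)).mul ((continuousAt_const.mul hυ.continuousAt).add ((continuousAt_id.sub continuousAt_const).mul hυ.deriv.continuousAt))
  · exact (hυ.continuousAt.mul (hb.comp hpc)).mul ((continuousAt_const.mul hξ.continuousAt).add ((continuousAt_id.sub continuousAt_const).mul hξ.deriv.continuousAt))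
  · filter_upwards [self_mem_nhdsWithin, nhdsWithin_le_nhds h1, nhdsWithin_le_nhds h2, nhdsWithin_le_nhds h3, nhdsWithin_le_nhds h4,
      nhdsWithin_le_nhds (h.isOpen.mem_nhds hz)] with w hw e1 e2 e3 e4 hwO
    have hw0 : w - z ≠ 0 := sub_ne_zero.2 hw
    have e5 := h.ode w hwO
    rw [hv] at e5
    simp only at e5
    rw [deriv_fst' (h.an w hwO).differentiableAt] at e2
    rw [deriv_snd' (h.an w hwO).differentiableAt] at e4
    have e6 : (w - z) ^ (m + n) * (ξ w * a (p w) * (n * υ w + (w - z) * deriv υ w)) = (w - z) ^ (m + n) * (υ w * b (p w) * (m * ξ w + (w - z) * deriv ξ w)) := by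
      have e7 : (p w).1 * a (p w) * ((w - z) * (deriv p w).2) = (p w).2 * b (p w) * ((w - z) * (deriv p w).1) := by linear_combination (w - z) * e5
      rw [e2, e4, e1, e3] at e7
      rw [pow_add]
      linear_combination e7
    exact mul_left_cancel₀ (pow_ne_zero _ hw0) e6

/-! ### the weight -/

theorem eventually_cball {S : ℂ × ℂ → Prop} (h : ∀ᶠ p in 𝓝 (0 : ℂ × ℂ), S p) : ∀ᶠ r in 𝓝[>] (0 : ℝ), ∀ p ∈ closedBall (0 : ℂ × ℂ) r, S p := by
  obtain ⟨ε, hε, h1⟩ := Metric.eventually_nhds_iff_ball.1 h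
  filter_upwards [Ioo_mem_nhdsGT hε] with r hr p hp
  exact h1 p (closedBall_subset_ball hr.2 hp)

/-- the order of `g₀` on an axis -/
theorem axis_order {h bb cc : ℂ → ℂ} (hh : AnalyticAt ℂ h 0) (hb : ContinuousAt bb 0) (hc : ContinuousAt cc 0)
    (hne : ∃ᶠ y in 𝓝 (0 : ℂ), h y ≠ 0) (he : ∀ᶠ y in 𝓝 (0 : ℂ), y * deriv h y * bb y = cc y * h y) :
    ∃ j : ℕ, (j = 0 ↔ h 0 ≠ 0) ∧ (j : ℂ) * bb 0 = cc 0 := by
  obtain ⟨m, ξ, hξ, hξ0, hm, h1, h2⟩ := ord_pack hh hne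
  refine ⟨m, hm, ?_⟩
  have key := eq_of_punct_ax (A := fun w => (m * ξ w + w * deriv ξ w) * bb w) (B := fun w => cc w * ξ w) (z := 0) ?_ ?_ ?_
  · simp only [zero_mul, add_zero] at key
    have e : ξ 0 * ((m : ℂ) * bb 0 - cc 0) = 0 := by linear_combination key
    exact sub_eq_zero.1 ((mul_eq_zero.1 e).resolve_left hξ0)
  · exact ((continuousAt_const.mul hξ.continuousAt).add (continuousAt_id.mul hξ.deriv.continuousAt)).mul hb
  · exact hc.mul hξ.continuousAt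
  · filter_upwards [self_mem_nhdsWithin, nhdsWithin_le_nhds h1, nhdsWithin_le_nhds h2, nhdsWithin_le_nhds he] with w hw e1 e2 e3
    rw [sub_zero] at e1 e2
    have hw0 : (w : ℂ) ≠ 0 := hw
    have e6 : w ^ m * ((m * ξ w + w * deriv ξ w) * bb w) = w ^ m * (cc w * ξ w) := by
      rw [e1, e2] at e3
      linear_combination e3
    exact mul_left_cancel₀ (pow_ne_zero _ hw0) e6

theorem fderiv_xy {g₀ : ℂ × ℂ → ℂ} {p : ℂ × ℂ} (h : DifferentiableAt ℂ g₀ p) : HasFDerivAt (fun p : ℂ × ℂ => p.1 * p.2 * g₀ p)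
    ((p.1 * p.2) • fderiv ℂ g₀ p + g₀ p • (p.1 • ContinuousLinearMap.snd ℂ ℂ ℂ + p.2 • ContinuousLinearMap.fst ℂ ℂ ℂ)) p :=
  ((hasFDerivAt_fst (𝕜 := ℂ) (p := p)).mul (hasFDerivAt_snd (𝕜 := ℂ) (p := p))).mul h.hasFDerivAt

/-- at a corner the weight is `x y` times a unit -/
theorem corner_unit {a b g g₀ : ℂ × ℂ → ℂ} (ha : AnalyticAt ℂ a 0) (hb : AnalyticAt ℂ b 0)
    (hq : ∀ k l : ℕ, 1 ≤ k → 1 ≤ l → k * a 0 ≠ l * b 0) (hg₀ : AnalyticAt ℂ g₀ 0) (hg : ∀ᶠ p in 𝓝 (0 : ℂ × ℂ), g p = p.1 * p.2 * g₀ p)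
    (hw : Wt (fun p => (p.1 * a p, p.2 * b p)) g) : g₀ 0 ≠ 0 := by
  obtain ⟨c, hc, hcof⟩ := hw.cof
  have hfd : ∀ᶠ p in 𝓝 (0 : ℂ × ℂ), fderiv ℂ g p =
      (p.1 * p.2) • fderiv ℂ g₀ p + g₀ p • (p.1 • ContinuousLinearMap.snd ℂ ℂ ℂ + p.2 • ContinuousLinearMap.fst ℂ ℂ ℂ) := by
    filter_upwards [hg.eventually_nhds, hg₀.eventually_analyticAt] with p h1 h2
    rw [(show g =ᶠ[𝓝 p] fun p => p.1 * p.2 * g₀ p from h1).fderiv_eq, (fderiv_xy h2.differentiableAt).fderiv]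
  -- the relation off the axes
  have hE0 : ∀ᶠ p in 𝓝 (0 : ℂ × ℂ), p.1 ≠ 0 → p.2 ≠ 0 → fderiv ℂ g₀ p (p.1 * a p, p.2 * b p) = (c p - a p - b p) * g₀ p := by
    filter_upwards [hfd, hcof, hg] with p h1 h2 h3 hx hy
    rw [h1, h3] at h2
    simp only [ContinuousLinearMap.add_apply, ContinuousLinearMap.smul_apply, ContinuousLinearMap.coe_fst', ContinuousLinearMap.coe_snd',
      smul_eq_mul] at h2
    have h4 : (p.1 * p.2) * (fderiv ℂ g₀ p (p.1 * a p, p.2 * b p)) = (p.1 * p.2) * ((c p - a p - b p) * g₀ p) := by linear_combination h2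
    exact mul_left_cancel₀ (mul_ne_zero hx hy) h4
  -- the relation
  have hE : ∀ᶠ p in 𝓝 (0 : ℂ × ℂ), fderiv ℂ g₀ p (p.1 * a p, p.2 * b p) = (c p - a p - b p) * g₀ p := by
    filter_upwards [hE0.eventually_nhds, hg₀.eventually_analyticAt, ha.eventually_analyticAt, hb.eventually_analyticAt, hc.eventually_analyticAt]
      with p h1 h2 h3 h4 h5
    have hT : ContinuousAt (fun t : ℂ => ((p.1 + t, p.2 + t) : ℂ × ℂ)) 0 :=
      (continuous_const.add continuous_id).prodMk (continuous_const.add continuous_id) |>.continuousAt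
    have hT0 : ((p.1 + 0, p.2 + 0) : ℂ × ℂ) = p := by rw [add_zero, add_zero]
    have hL : ContinuousAt (fun q : ℂ × ℂ => fderiv ℂ g₀ q (q.1 * a q, q.2 * b q)) p :=
      h2.fderiv.continuousAt.clm_apply ((continuousAt_fst.mul h3.continuousAt).prodMk (continuousAt_snd.mul h4.continuousAt))
    have hR : ContinuousAt (fun q : ℂ × ℂ => (c q - a q - b q) * g₀ q) p :=
      ((h5.continuousAt.sub h3.continuousAt).sub h4.continuousAt).mul h2.continuousAt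
    have key := eq_of_punct_ax (A := fun t : ℂ => (fun q : ℂ × ℂ => fderiv ℂ g₀ q (q.1 * a q, q.2 * b q)) (p.1 + t, p.2 + t))
      (B := fun t : ℂ => (fun q : ℂ × ℂ => (c q - a q - b q) * g₀ q) (p.1 + t, p.2 + t)) (z := 0)
      (ContinuousAt.comp (g := fun q : ℂ × ℂ => fderiv ℂ g₀ q (q.1 * a q, q.2 * b q)) (by rw [hT0]; exact hL) hT)
      (ContinuousAt.comp (g := fun q : ℂ × ℂ => (c q - a q - b q) * g₀ q) (by rw [hT0]; exact hR) hT) ?_
    · simpa only [add_zero] using key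
    · have h6 := hT.tendsto.eventually (p := fun q : ℂ × ℂ => q.1 ≠ 0 → q.2 ≠ 0 → fderiv ℂ g₀ q (q.1 * a q, q.2 * b q) = (c q - a q - b q) * g₀ q)
        (by rw [hT0]; exact h1)
      have hne : ∀ x : ℂ, ∀ᶠ t in 𝓝[≠] (0 : ℂ), x + t ≠ 0 := fun x => by
        rcases eq_or_ne x 0 with rfl | hx
        · filter_upwards [self_mem_nhdsWithin] with t ht
          rw [zero_add]
          exact ht
        · have : ContinuousAt (fun t : ℂ => x + t) 0 := by fun_prop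
          exact nhdsWithin_le_nhds (this.eventually_ne (by simpa using hx))
      filter_upwards [nhdsWithin_le_nhds h6, hne p.1, hne p.2] with t e1 e2 e3
      exact e1 e2 e3
  intro h00
  have hc₁ : ContinuousAt (fun p => c p - a p - b p) 0 := (hc.continuousAt.sub ha.continuousAt).sub hb.continuousAt
  -- the axis `x = 0`
  have hi₁ : ContinuousAt (fun y : ℂ => ((0, y) : ℂ × ℂ)) 0 := (continuous_const.prodMk continuous_id).continuousAt
  have hi₁' : Tendsto (fun y : ℂ => ((0, y) : ℂ × ℂ)) (𝓝 0) (𝓝 0) := hi₁.tendsto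
  have hi₂ : ContinuousAt (fun x : ℂ => ((x, 0) : ℂ × ℂ)) 0 := (continuous_id.prodMk continuous_const).continuousAt
  have hi₂' : Tendsto (fun x : ℂ => ((x, 0) : ℂ × ℂ)) (𝓝 0) (𝓝 0) := hi₂.tendsto
  have e00 : ((0 : ℂ), (0 : ℂ)) = (0 : ℂ × ℂ) := rfl
  have hne0 : ∀ᶠ y in 𝓝[≠] (0 : ℂ), y ≠ 0 := self_mem_nhdsWithin
  obtain ⟨j, hj, hj'⟩ := axis_order (h := fun y => g₀ (0, y)) (bb := fun y => b (0, y)) (cc := fun y => c (0, y) - a (0, y) - b (0, y))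
    (AnalyticAt.fun_comp (g := g₀) (f := fun y : ℂ => ((0, y) : ℂ × ℂ)) (by rw [e00]; exact hg₀) (analyticAt_const.prod analyticAt_id))
    (ContinuousAt.comp (g := b) (f := fun y : ℂ => ((0, y) : ℂ × ℂ)) (by rw [e00]; exact hb.continuousAt) hi₁)
    (ContinuousAt.comp (g := fun p => c p - a p - b p) (f := fun y : ℂ => ((0, y) : ℂ × ℂ)) (by rw [e00]; exact hc₁) hi₁)
    (by
      intro h1
      have h2 : ∀ᶠ y in 𝓝[≠] (0 : ℂ), False := by
        filter_upwards [nhdsWithin_le_nhds h1, nhdsWithin_le_nhds (hi₁'.eventually hfd), nhdsWithin_le_nhds (hi₁'.eventually hg),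
          nhdsWithin_le_nhds (hi₁'.eventually hw.red), hne0] with y e1 e2 e3 e4 e5
        rw [not_not] at e1
        refine e4 (fun h => e5 (congrArg Prod.snd h)) (by rw [e3]; simp) ?_
        rw [e2, e1]
        refine ContinuousLinearMap.ext fun u => ?_
        simp
      exact (h2.exists).elim fun _ h => h)
    (by
      filter_upwards [hi₁'.eventually hE, hi₁'.eventually hg₀.eventually_analyticAt] with y e1 e2
      have h3 : HasDerivAt (fun y : ℂ => g₀ (0, y)) (fderiv ℂ g₀ (0, y) (0, 1)) y :=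
        e2.differentiableAt.hasFDerivAt.comp_hasDerivAt y ((hasDerivAt_const y (0 : ℂ)).prodMk (hasDerivAt_id y))
      rw [h3.deriv]
      have h4 : ((0 * a (0, y), y * b (0, y)) : ℂ × ℂ) = (y * b (0, y)) • ((0, 1) : ℂ × ℂ) := by ext <;> simp
      rw [h4, map_smul, smul_eq_mul] at e1
      linear_combination e1)
  obtain ⟨i, hi, hi'⟩ := axis_order (h := fun x => g₀ (x, 0)) (bb := fun x => a (x, 0)) (cc := fun x => c (x, 0) - a (x, 0) - b (x, 0))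
    (AnalyticAt.fun_comp (g := g₀) (f := fun x : ℂ => ((x, 0) : ℂ × ℂ)) (by rw [e00]; exact hg₀) (analyticAt_id.prod analyticAt_const))
    (ContinuousAt.comp (g := a) (f := fun x : ℂ => ((x, 0) : ℂ × ℂ)) (by rw [e00]; exact ha.continuousAt) hi₂)
    (ContinuousAt.comp (g := fun p => c p - a p - b p) (f := fun x : ℂ => ((x, 0) : ℂ × ℂ)) (by rw [e00]; exact hc₁) hi₂)
    (by
      intro h1
      have h2 : ∀ᶠ x in 𝓝[≠] (0 : ℂ), False := by
        filter_upwards [nhdsWithin_le_nhds h1, nhdsWithin_le_nhds (hi₂'.eventually hfd), nhdsWithin_le_nhds (hi₂'.eventually hg),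
          nhdsWithin_le_nhds (hi₂'.eventually hw.red), hne0] with x e1 e2 e3 e4 e5
        rw [not_not] at e1
        refine e4 (fun h => e5 (congrArg Prod.fst h)) (by rw [e3]; simp) ?_
        rw [e2, e1]
        refine ContinuousLinearMap.ext fun u => ?_
        simp
      exact (h2.exists).elim fun _ h => h)
    (by
      filter_upwards [hi₂'.eventually hE, hi₂'.eventually hg₀.eventually_analyticAt] with x e1 e2
      have h3 : HasDerivAt (fun x : ℂ => g₀ (x, 0)) (fderiv ℂ g₀ (x, 0) (1, 0)) x :=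
        e2.differentiableAt.hasFDerivAt.comp_hasDerivAt x ((hasDerivAt_id x).prodMk (hasDerivAt_const x (0 : ℂ)))
      rw [h3.deriv]
      have h4 : ((x * a (x, 0), 0 * b (x, 0)) : ℂ × ℂ) = (x * a (x, 0)) • ((1, 0) : ℂ × ℂ) := by ext <;> simp
      rw [h4, map_smul, smul_eq_mul] at e1
      linear_combination e1)
  simp only [e00] at hj hj' hi hi'
  have hj1 : 1 ≤ j := Nat.one_le_iff_ne_zero.2 fun h => (hj.1 h) h00
  have hi1 : 1 ≤ i := Nat.one_le_iff_ne_zero.2 fun h => (hi.1 h) h00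
  exact hq i j hi1 hj1 (hi'.trans hj'.symm)

theorem ratio_bound {r : ℝ} {a b : ℂ × ℂ → ℂ} (ha : AnalyticOnNhd ℂ a (closedBall 0 r)) (hb : AnalyticOnNhd ℂ b (closedBall 0 r))
    (hb0 : ∀ p ∈ closedBall (0 : ℂ × ℂ) r, b p ≠ 0) : ∃ K : ℝ, 0 < K ∧ ∀ p ∈ closedBall (0 : ℂ × ℂ) r, ‖a p‖ ≤ K * ‖b p‖ := by
  obtain ⟨K, hK0, hK⟩ := exists_bound (r := r) (f := fun p => a p / b p)
    (ContinuousOn.div (fun p hp => (ha p hp).continuousAt.continuousWithinAt) (fun p hp => (hb p hp).continuousAt.continuousWithinAt) hb0)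
  refine ⟨K, hK0, fun p hp => ?_⟩
  have h1 := hK p hp
  rwa [norm_div, div_le_iff₀ (norm_pos_iff.2 (hb0 p hp))] at h1

theorem fderiv_bound {r : ℝ} {g₀ : ℂ × ℂ → ℂ} (h : AnalyticOnNhd ℂ g₀ (closedBall 0 r)) :
    ∃ K : ℝ, 0 < K ∧ ∀ p ∈ closedBall (0 : ℂ × ℂ) r, ‖fderiv ℂ g₀ p‖ ≤ K := by
  obtain ⟨C, hC⟩ := (isCompact_closedBall (0 : ℂ × ℂ) r).exists_bound_of_continuousOn (f := fderiv ℂ g₀)
    fun p hp => (h p hp).fderiv.continuousAt.continuousWithinAt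
  exact ⟨max C 1, lt_of_lt_of_le one_pos (le_max_right _ _), fun p hp => (hC p hp).trans (le_max_left _ _)⟩

/-- the bounded part of the field of a node, with a unit `g₀` -/
def D0 (a b g₀ : ℂ × ℂ → ℂ) (p : ℂ → ℂ × ℂ) (z : ℂ) : ℂ := G0 a b p z - deriv (fun w => g₀ (p w)) z / g₀ (p z)

theorem D0_bound {r : ℝ} {a b g₀ : ℂ × ℂ → ℂ} (ha : AnalyticOnNhd ℂ a (closedBall 0 r)) (hb : AnalyticOnNhd ℂ b (closedBall 0 r))
    (hg : AnalyticOnNhd ℂ g₀ (closedBall 0 r)) (ha0 : ∀ p ∈ closedBall (0 : ℂ × ℂ) r, a p ≠ 0) (hb0 : ∀ p ∈ closedBall (0 : ℂ × ℂ) r, b p ≠ 0)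
    (hg0 : ∀ p ∈ closedBall (0 : ℂ × ℂ) r, g₀ p ≠ 0) : ∃ C : ℝ, 0 < C ∧ ∀ {p : ℂ → ℂ × ℂ} {z : ℂ} (_ : AnalyticAt ℂ p z)
      (_ : p z ∈ closedBall (0 : ℂ × ℂ) r), AnalyticAt ℂ (D0 a b g₀ p) z ∧ ‖D0 a b g₀ p z‖ ≤ C * ‖deriv p z‖ := by
  have hda : AnalyticOnNhd ℂ (fun p => fderiv ℂ a p (1, 0)) (closedBall 0 r) := fun p hp =>
    ((ContinuousLinearMap.apply ℂ ℂ ((1, 0) : ℂ × ℂ)).analyticAt _).comp (ha p hp).fderiv
  have hdb : AnalyticOnNhd ℂ (fun p => fderiv ℂ b p (0, 1)) (closedBall 0 r) := fun p hp =>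
    ((ContinuousLinearMap.apply ℂ ℂ ((0, 1) : ℂ × ℂ)).analyticAt _).comp (hb p hp).fderiv
  obtain ⟨K₁, hK₁, h1⟩ := ratio_bound hda ha ha0
  obtain ⟨K₂, hK₂, h2⟩ := ratio_bound hdb hb hb0
  obtain ⟨K₃, hK₃, h3⟩ := fderiv_bound hg
  obtain ⟨K₄, hK₄, h4⟩ := ratio_bound (a := fun _ => 1) (fun p _ => analyticAt_const) hg hg0
  refine ⟨K₁ + K₂ + K₃ * K₄, by positivity, fun {p z} hp hz => ?_⟩
  have hgp : AnalyticAt ℂ (fun w => g₀ (p w)) z := (hg _ hz).comp hp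
  refine ⟨(an_G0 (ha _ hz) (hb _ hz) (ha0 _ hz) (hb0 _ hz) hp).sub (hgp.deriv.div hgp (hg0 _ hz)), ?_⟩
  have e1 : ‖(deriv p z).1‖ ≤ ‖deriv p z‖ := norm_fst_le _
  have e2 : ‖(deriv p z).2‖ ≤ ‖deriv p z‖ := norm_snd_le _
  have e0 := norm_nonneg (deriv p z)
  have k1 : ‖fderiv ℂ a (p z) (1, 0) * (deriv p z).1 / a (p z)‖ ≤ K₁ * ‖deriv p z‖ := by
    rw [norm_div, norm_mul, div_le_iff₀ (norm_pos_iff.2 (ha0 _ hz))]
    calc _ ≤ (K₁ * ‖a (p z)‖) * ‖deriv p z‖ := mul_le_mul (h1 _ hz) e1 (norm_nonneg _) (by positivity)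
      _ = _ := by ring
  have k2 : ‖fderiv ℂ b (p z) (0, 1) * (deriv p z).2 / b (p z)‖ ≤ K₂ * ‖deriv p z‖ := by
    rw [norm_div, norm_mul, div_le_iff₀ (norm_pos_iff.2 (hb0 _ hz))]
    calc _ ≤ (K₂ * ‖b (p z)‖) * ‖deriv p z‖ := mul_le_mul (h2 _ hz) e2 (norm_nonneg _) (by positivity)
      _ = _ := by ring
  have k3 : ‖deriv (fun w => g₀ (p w)) z / g₀ (p z)‖ ≤ K₃ * K₄ * ‖deriv p z‖ := by
    have h5 : HasDerivAt (fun w => g₀ (p w)) (fderiv ℂ g₀ (p z) (deriv p z)) z :=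
      (hg _ hz).differentiableAt.hasFDerivAt.comp_hasDerivAt z hp.differentiableAt.hasDerivAt
    have h6 := h4 _ hz
    rw [norm_one] at h6
    rw [h5.deriv, norm_div, div_le_iff₀ (norm_pos_iff.2 (hg0 _ hz))]
    calc ‖fderiv ℂ g₀ (p z) (deriv p z)‖ ≤ ‖fderiv ℂ g₀ (p z)‖ * ‖deriv p z‖ := ContinuousLinearMap.le_opNorm _ _
      _ ≤ K₃ * ‖deriv p z‖ := mul_le_mul_of_nonneg_right (h3 _ hz) e0
      _ = K₃ * ‖deriv p z‖ * 1 := by ring
      _ ≤ K₃ * ‖deriv p z‖ * (K₄ * ‖g₀ (p z)‖) := mul_le_mul_of_nonneg_left h6 (by positivity)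
      _ = _ := by ring
  unfold D0 G0
  calc _ ≤ (‖fderiv ℂ a (p z) (1, 0) * (deriv p z).1 / a (p z)‖ + ‖fderiv ℂ b (p z) (0, 1) * (deriv p z).2 / b (p z)‖) +
        ‖deriv (fun w => g₀ (p w)) z / g₀ (p z)‖ := (norm_sub_le _ _).trans (add_le_add (norm_add_le _ _) le_rfl)
    _ ≤ _ := by linarith

/-- the package at a corner, `g = x y g₀`, `g₀` a unit -/
theorem corner_pkg {a b g g₀ J : ℂ × ℂ → ℂ} (ha : AnalyticAt ℂ a 0) (hb : AnalyticAt ℂ b 0) (ha0 : a 0 ≠ 0) (hb0 : b 0 ≠ 0)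
    (hq : ∀ k l : ℕ, 1 ≤ k → 1 ≤ l → k * a 0 ≠ l * b 0) (hg₀ : AnalyticAt ℂ g₀ 0) (hu : g₀ 0 ≠ 0)
    (hg : ∀ᶠ p in 𝓝 (0 : ℂ × ℂ), g p = p.1 * p.2 * g₀ p) (hJ : AnalyticAt ℂ J 0) : ∀ᶠ r in 𝓝[>] (0 : ℝ), ∀ B, 0 ≤ B → ∀ (d : ℕ) (q : ℂ × ℂ → ℂ)
      (ψ : ℂ × ℂ → ℝ) (M : ℕ) (F : ℂ → EN M) (Q : ℂ → ℂ) (lm : ℂ → ℝ) (Om : Set ℂ) (p : ℂ → ℂ × ℂ),
        Dat (fun p => (p.1 * a p, p.2 * b p)) g r B d q ψ F Q lm Om p → ∀ s, LocX (fun p => (p.1 * a p, p.2 * b p)) g J Om p lm s 1 0 := by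
  have h1 := eventually_cball (ha.eventually_analyticAt.and (hb.eventually_analyticAt.and (hg₀.eventually_analyticAt.and
    (hJ.eventually_analyticAt.and ((ha.continuousAt.eventually_ne ha0).and ((hb.continuousAt.eventually_ne hb0).and
      ((hg₀.continuousAt.eventually_ne hu).and hg)))))))
  filter_upwards [h1] with r hr B hB
  have r1 : AnalyticOnNhd ℂ a (closedBall 0 r) := fun p hp => (hr p hp).1
  have r2 : AnalyticOnNhd ℂ b (closedBall 0 r) := fun p hp => (hr p hp).2.1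
  have r3 : AnalyticOnNhd ℂ g₀ (closedBall 0 r) := fun p hp => (hr p hp).2.2.1
  have r4 : AnalyticOnNhd ℂ J (closedBall 0 r) := fun p hp => (hr p hp).2.2.2.1
  have r5 : ∀ p ∈ closedBall (0 : ℂ × ℂ) r, a p ≠ 0 := fun p hp => (hr p hp).2.2.2.2.1
  have r6 : ∀ p ∈ closedBall (0 : ℂ × ℂ) r, b p ≠ 0 := fun p hp => (hr p hp).2.2.2.2.2.1
  have r7 : ∀ p ∈ closedBall (0 : ℂ × ℂ) r, g₀ p ≠ 0 := fun p hp => (hr p hp).2.2.2.2.2.2.1
  have r8 : ∀ p ∈ closedBall (0 : ℂ × ℂ) r, g p = p.1 * p.2 * g₀ p := fun p hp => (hr p hp).2.2.2.2.2.2.2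
  obtain ⟨C₁, hC₁, hD0⟩ := D0_bound r1 r2 r3 r5 r6 r7
  obtain ⟨K₁, hK₁, hab⟩ := ratio_bound r1 r2 r6
  obtain ⟨K₂, hK₂, hba⟩ := ratio_bound r2 r1 r5
  have r10 : AnalyticOnNhd ℂ (fun p : ℂ × ℂ => p.2 * g₀ p * J p) (closedBall 0 r) := fun p hp =>
    (analyticAt_snd.mul (r3 p hp)).mul (r4 p hp)
  obtain ⟨C₂, hC₂, hgJ⟩ := ratio_bound r10 r1 r5
  intro d q ψ M F Q lm Om p hD s
  have hcrv := hD.crv
  have hmem : ∀ z ∈ Om, p z ∈ closedBall (0 : ℂ × ℂ) r := fun z hz => ball_subset_closedBall (hcrv.mem z hz)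
  have hN : NodeC (fun p => (p.1 * a p, p.2 * b p)) r Om p a b (max K₁ K₂) :=
    ⟨hcrv, r1, r2, r5, r6, fun _ => rfl, fun p hp => (hab p hp).trans (mul_le_mul_of_nonneg_right (le_max_left _ _) (norm_nonneg _)),
      fun p hp => (hba p hp).trans (mul_le_mul_of_nonneg_right (le_max_right _ _) (norm_nonneg _))⟩
  -- no curve meets the axes
  have hax : ∀ z ∈ Om, (p z).1 ≠ 0 ∧ (p z).2 ≠ 0 := fun z hz => by
    have h2 : ∀ᶠ w in 𝓝 z, g (p w) = (p w).1 * (p w).2 * g₀ (p w) := by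
      filter_upwards [hcrv.isOpen.mem_nhds hz] with w hw using r8 _ (hmem w hw)
    have h3 := (hD.g_ne z hz).and_eventually h2
    obtain ⟨m, k, hm, hk, hmk⟩ := ord_axes hcrv (fun _ => rfl) hz (r1 _ (hmem z hz)).continuousAt (r2 _ (hmem z hz)).continuousAt
      (h3.mono fun w hw h4 => hw.1 (by rw [hw.2, h4, zero_mul, zero_mul])) (h3.mono fun w hw h4 => hw.1 (by rw [hw.2, h4, mul_zero, zero_mul]))
    rw [← hm, ← hk]
    have ha' := r5 _ (hmem z hz)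
    have hb' := r6 _ (hmem z hz)
    rcases Nat.eq_zero_or_pos m with rfl | hm0
    · refine ⟨rfl, ?_⟩
      rw [Nat.cast_zero, zero_mul] at hmk
      exact_mod_cast (mul_eq_zero.1 hmk.symm).resolve_right ha'
    · exfalso
      rcases Nat.eq_zero_or_pos k with rfl | hk0
      · rw [Nat.cast_zero, zero_mul] at hmk
        have := (mul_eq_zero.1 hmk).resolve_right hb'
        exact hm0.ne' (by exact_mod_cast this)
      · have h5 : (p z).1 = 0 := by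
          by_contra h5
          exact hm0.ne' (hm.2 h5)
        have h6 : (p z).2 = 0 := by
          by_contra h6
          exact hk0.ne' (hk.2 h6)
        have h7 : p z = 0 := Prod.ext h5 h6
        rw [h7] at hmk
        exact hq k m hk0 hm0 hmk.symm
  have hgz : ∀ z ∈ Om, g (p z) = (p z).1 * (p z).2 * g₀ (p z) := fun z hz => r8 _ (hmem z hz)
  have hDD : ∀ z ∈ Om, DDv (fun p => (p.1 * a p, p.2 * b p)) g p z = D0 a b g₀ p z := fun z hz => by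
    obtain ⟨hx, hy⟩ := hax z hz
    have hg0 := r7 _ (hmem z hz)
    unfold DDv D0
    rw [hN.dvg_zt hz (Or.inl hx)]
    have e1 : (fun w => g (p w)) =ᶠ[𝓝 z] fun w => (p w).1 * (p w).2 * g₀ (p w) := by
      filter_upwards [hcrv.isOpen.mem_nhds hz] with w hw using hgz w hw
    have hp := hcrv.an z hz
    have d1 : HasDerivAt (fun w => (p w).1) (deriv p z).1 z := by
      have := (an_fst hp).differentiableAt.hasDerivAt
      rwa [deriv_fst' hp.differentiableAt] at this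
    have d2 : HasDerivAt (fun w => (p w).2) (deriv p z).2 z := by
      have := (an_snd hp).differentiableAt.hasDerivAt
      rwa [deriv_snd' hp.differentiableAt] at this
    have d3 : HasDerivAt (fun w => g₀ (p w)) (deriv (fun w => g₀ (p w)) z) z :=
      (AnalyticAt.differentiableAt ((r3 _ (hmem z hz)).comp hp)).hasDerivAt
    rw [e1.deriv_eq, ((d1.fun_mul d2).fun_mul d3).deriv, hgz z hz, hN.dfst hz (Or.inl hx), hN.dsnd hz (Or.inl hx)]
    field_simp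
    ring
  have hDan : ∀ z ∈ Om, AnalyticAt ℂ (D0 a b g₀ p) z := fun z hz => (hD0 (hcrv.an z hz) (hmem z hz)).1
  have hDle : ∀ z ∈ Om, ‖D0 a b g₀ p z‖ ≤ C₁ * B * lm z := fun z hz => by
    refine ((hD0 (hcrv.an z hz) (hmem z hz)).2).trans ?_
    rw [mul_assoc]
    exact mul_le_mul_of_nonneg_left (hD.lm_ge z hz) hC₁.le
  have hI : ∀ R, 1 ≤ R → 0 ≤ ∫ z, tau R z * lm z ^ 2 := fun R hR =>
    integral_nonneg fun z => mul_nonneg (Pool.Agent.H30M.tau_nonneg hR _) (sq_nonneg _)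
  set C : ℝ := C₁ * B + Real.log (1 + C₂ * B) with hC
  have hlog0 : 0 ≤ Real.log (1 + C₂ * B) := Real.log_nonneg (by
    have : 0 ≤ C₂ * B := by positivity
    linarith)
  have hC0 : 0 ≤ C := by positivity
  refine ⟨C, lm, fun z => (starRingEnd ℂ) (D0 a b g₀ p z), fun _ => 0, fun _ => 0, hC0, hD.lm_cont, fun z => le_rfl, fun R hR => by linarith, ?_,
    continuousOn_const, fun z _ => ⟨0, LogSing.of_contDiffAt contDiffAt_const⟩, fun z hz _ => ⟨by rw [hDD z hz], rfl, rfl⟩, fun z hz _ => ?_,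
    fun z hz _ => ?_, fun z hz _ hzt hgz' hJz => ?_, fun R hR => ?_⟩
  · exact fun z hz => (contDiffAt_conj_holo (hDan z hz)).contDiffWithinAt
  · rw [RCLike.norm_conj]
    refine (hDle z hz).trans (mul_le_mul_of_nonneg_right ?_ (hD.lm_nonneg z))
    linarith
  · have e : dv (fun z => (starRingEnd ℂ) (D0 a b g₀ p z)) z = 0 := dv_conj (hDan z hz).differentiableAt
    have e2 : Δ (fun _ : ℂ => (0 : ℝ)) z = 0 := by simp
    rw [e, e2]
    norm_num
  · rw [add_zero]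
    obtain ⟨hx, hy⟩ := hax z hz
    have hap := r5 _ (hmem z hz)
    rw [← Real.log_mul (norm_ne_zero_iff.2 hzt) (norm_ne_zero_iff.2 hgz'), ← Real.log_mul (mul_ne_zero (norm_ne_zero_iff.2 hzt) (norm_ne_zero_iff.2 hgz'))
      (norm_ne_zero_iff.2 hJz), ← norm_mul, ← norm_mul]
    have hlm := hD.lm_nonneg z
    have e1 : ‖ztv (fun p => (p.1 * a p, p.2 * b p)) p z * g (p z) * J (p z)‖ ≤ C₂ * B * lm z := by
      have e2 : ztv (fun p => (p.1 * a p, p.2 * b p)) p z * g (p z) * J (p z) =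
          (deriv p z).1 * ((p z).2 * g₀ (p z) * J (p z) / a (p z)) := by
        rw [hgz z hz, hN.dfst hz (Or.inl hx)]
        field_simp
      rw [e2, norm_mul, norm_div]
      have e3 := hgJ _ (hmem z hz)
      calc ‖(deriv p z).1‖ * (‖(p z).2 * g₀ (p z) * J (p z)‖ / ‖a (p z)‖) ≤ ‖deriv p z‖ * C₂ :=
            mul_le_mul (norm_fst_le _) (by rwa [div_le_iff₀ (norm_pos_iff.2 hap)]) (by positivity) (norm_nonneg _)
        _ ≤ B * lm z * C₂ := mul_le_mul_of_nonneg_right (hD.lm_ge z hz) hC₂.le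
        _ = _ := by ring
    have e3 : 0 < ‖ztv (fun p => (p.1 * a p, p.2 * b p)) p z * g (p z) * J (p z)‖ := norm_pos_iff.2 (mul_ne_zero (mul_ne_zero hzt hgz') hJz)
    have hCB : 0 ≤ C₂ * B := by positivity
    have e4 : C₂ * B * lm z ≤ (1 + C₂ * B) * (1 + lm z) := by nlinarith
    calc Real.log _ ≤ Real.log ((1 + C₂ * B) * (1 + lm z)) := Real.log_le_log e3 (e1.trans e4)
      _ = Real.log (1 + C₂ * B) + Real.log (1 + lm z) := Real.log_mul (by positivity) (by positivity)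
      _ ≤ _ := by
        have : 0 ≤ C₁ * B := by positivity
        linarith
  · simp only [mul_zero, integral_zero, zero_mul, zero_div, zero_add]
    refine add_nonneg (mul_nonneg hC0 (integral_nonneg fun z => mul_nonneg (norm_nonneg _) (hD.lm_nonneg z))) hC0

/-- **The package at a corner.** -/
theorem good_C {a b : ℂ × ℂ → ℂ} (ha : AnalyticAt ℂ a 0) (hb : AnalyticAt ℂ b 0) (ha0 : a 0 ≠ 0) (hb0 : b 0 ≠ 0)
    (hq : ∀ k l : ℕ, 1 ≤ k → 1 ≤ l → k * a 0 ≠ l * b 0) : Good PC fun p => (p.1 * a p, p.2 * b p) := by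
  refine ⟨0, fun i => i.elim0, fun i => i.elim0, ?_⟩
  rintro g J ⟨⟨g₀, hg₀, hg⟩, -⟩ hw hJan
  filter_upwards [corner_pkg ha hb ha0 hb0 hq hg₀ (corner_unit ha hb hq hg₀ hg hw) hg hJan] with r hr s hs hsr B hB
  refine ⟨1, 0, zero_le_one, le_rfl, ?_⟩
  intro d n q ψ _ _ _ _ _ M F Q lm Om p hD
  rw [zero_mul, zero_div]
  exact hr B hB d q ψ M F Q lm Om p hD s

end Pool.Agent.MQ2
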